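import Pool.Agent.LRG.StmtsC

/-!
# Squad LRG, row INF
-/

set_option autoImplicit false

open Polynomial NumberField

namespace Pool.Agent.LRG.H32

theorem normal_of_alg' (E : Type) [Field E] (i1 i2 : Algebra ℚ E)
    (h : @Normal ℚ E _ _ i1) : @Normal ℚ E _ _ i2 := by
  rw [Subsingleton.elim i2 i1]
  exact h

theorem minpoly_alg (E : Type) [Field E] (i1 i2 : Algebra ℚ E) (x : E) :
    @minpoly ℚ E _ _ i1 x = @minpoly ℚ E _ _ i2 x := by
  rw [Subsingleton.elim i2 i1]

theorem inf : CX.InfStmt := by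
  intro K B _ hprim hB hKB σ a
  set σ' : K →ₐ[ℚ] ℂ := σ.toRatAlgHom with hσ'
  have hσ : ∀ b, σ' b = σ b := fun b => rfl
  rcases hprim (B.comap σ') with hE | hE
  · rw [eq_bot_iff]
    intro c hc
    obtain ⟨hc1, hc2⟩ := IntermediateField.mem_inf.1 hc
    have h1 : IntermediateField.adjoin ℚ {σ a} ≤ σ'.fieldRange := by
      rw [IntermediateField.adjoin_le_iff]
      rintro _ rfl
      exact ⟨a, rfl⟩
    obtain ⟨b, hb⟩ := h1 hc1
    have h2 : b ∈ B.comap σ' := by
      change σ' b ∈ B
      rw [show σ' b = c from hb]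
      exact hc2
    rw [hE, IntermediateField.mem_bot] at h2
    obtain ⟨q, hq⟩ := h2
    rw [IntermediateField.mem_bot]
    refine ⟨q, ?_⟩
    rw [← show σ' b = c from hb, ← hq]
    exact (σ'.commutes q).symm
  · exfalso
    apply hKB
    intro z hz
    have h1 : σ' ⟨z, hz⟩ ∈ B := by
      have : (⟨z, hz⟩ : K) ∈ B.comap σ' := by
        rw [hE]
        exact IntermediateField.mem_top
      exact this
    have hint : IsIntegral ℚ (⟨z, hz⟩ : K) := Algebra.IsIntegral.isIntegral _
    have hint2 : IsIntegral ℚ z := by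
      have := hint.map ((K.subtype).toRatAlgHom)
      exact this
    have hB' : @Normal ℚ B _ _ (IntermediateField.algebra' B) := normal_of_alg' _ _ _ hB
    refine hint2.mem_intermediateField_of_minpoly_splits ?_
    have h2 := hB'.splits ⟨σ' ⟨z, hz⟩, h1⟩
    have h3 : @minpoly ℚ B _ _ (IntermediateField.algebra' B) (⟨σ' ⟨z, hz⟩, h1⟩ : B) =
        minpoly ℚ z := by
      rw [IntermediateField.minpoly_eq]
      change minpoly ℚ (σ' ⟨z, hz⟩) = _
      rw [minpoly.algHom_eq σ' σ'.toRingHom.injective]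
      rw [minpoly_alg K _ (IntermediateField.algebra' K), IntermediateField.minpoly_eq]
    rwa [h3] at h2

end Pool.Agent.LRG.H32
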