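import Pool.Agent.LRG.StmtsC

/-!
# Squad LRG, row NOR
-/

set_option autoImplicit false

open Polynomial NumberField

namespace Pool.Agent.LRG.H32

theorem normal_of_alg (E : Type) [Field E] (i1 i2 : Algebra ℚ E)
    (h : @Normal ℚ E _ _ i1) : @Normal ℚ E _ _ i2 := by
  rw [Subsingleton.elim i2 i1]
  exact h

theorem nor : CX.NorStmt := by
  intro Ω _ _ S hS
  have h : CX.CjF S =
      ⨆ β : S, IntermediateField.adjoin ℚ ((minpoly ℚ (β : Ω)).rootSet ℂ) := by
    rw [CX.CjF, ← IntermediateField.adjoin_iUnion]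
    congr 1
    ext c
    simp only [Set.mem_ofPred_eq, Set.mem_iUnion, Polynomial.mem_rootSet]
    constructor
    · rintro ⟨β, hβ, hc⟩
      exact ⟨⟨β, hβ⟩, minpoly.ne_zero (hS β hβ).isIntegral, hc⟩
    · rintro ⟨β, _, hc⟩
      exact ⟨β, β.2, hc⟩
  refine normal_of_alg _ (IntermediateField.algebra' _) _ ?_
  rw [h]
  exact IntermediateField.normal_iSup (h := fun β =>
    Normal.of_isSplittingField (minpoly ℚ (β : Ω))
      (hFEp := IntermediateField.adjoin_rootSet_isSplittingField (IsAlgClosed.splits _)))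

end Pool.Agent.LRG.H32
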