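import Pool.Agent.LRG.StmtsB

/-!
# Squad LRG, row CHX
-/

set_option autoImplicit false

open Polynomial IsLocalRing

namespace Pool.Agent.LRG.H32

theorem jt_congr (D : ℕ → ℕ) {m : ℕ} {O : Type} [CommRing O]
    (s s' : (j : ℕ) → (Fin (m + 1) → Fin (D j + 1)) → O) :
    ∀ (k : ℕ), (∀ j < k, s j = s' j) → ∀ x : Fin (m + k) → O, Jt D s k x = Jt D s' k x
  | 0, _, _ => rfl
  | k + 1, h, x => by
      have h1 := jt_congr D s s' k (fun j hj => h j (by omega))
        (Fin.tail (n := m + k) (α := fun _ => O) x)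
      have h2 : s k = s' k := h k (by omega)
      simp only [Jt]
      rw [h1, h2]

theorem yv_zero (D : ℕ → ℕ) {m : ℕ} {O : Type} [CommRing O] :
    ∀ (k : ℕ) (x : Fin (m + k) → O), (∀ i, x i = 0) → ∀ i, yv D k x i = 0
  | 0, _, h, i => h i
  | k + 1, x, h, i => by
      have h1 := yv_zero D k (Fin.tail (n := m + k) (α := fun _ => O) x) (fun i => h _) i
      simp only [yv]
      rw [h1, h 0, zero_pow, sub_zero]
      positivity

theorem constantCoeff_yv (hJ : JtrStmt) (D : ℕ → ℕ) (m k : ℕ) (A : Type) [CommRing A] (i : Fin m) :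
    MvPowerSeries.constantCoeff
      (yv D k (MvPowerSeries.X : Fin (m + k) → MvPowerSeries (Fin (m + k)) A) i) = 0 := by
  have h := (hJ D m (MvPowerSeries (Fin (m + k)) A) A
    (MvPowerSeries.constantCoeff (σ := Fin (m + k)) (R := A)) (fun _ _ => 0) k
    MvPowerSeries.X).1 i
  rw [h]
  exact yv_zero D k _ (fun j => MvPowerSeries.constantCoeff_X j) i

/-- The generic coefficients. -/
noncomputable def sR (p : ℕ) [Fact p.Prime] (D : ℕ → ℕ) (m k : ℕ)
    (s₀ : (j : ℕ) → (Fin (m + 1) → Fin (D j + 1)) → ℤ) :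
    (j : ℕ) → (Fin (m + 1) → Fin (D j + 1)) →
      MvPowerSeries ((j : Fin k) × (Fin (m + 1) → Fin (D j + 1))) ℤ_[p] := fun j α =>
  if h : j < k then MvPowerSeries.C (s₀ j α : ℤ_[p]) + MvPowerSeries.X ⟨⟨j, h⟩, α⟩ else 1

theorem dom_zero {p : ℕ} [Fact p.Prime] {m : ℕ} (K : ℕ) :
    Dom K (0 : MvPowerSeries (Fin m) ℤ_[p]) := by
  intro α
  refine ⟨0, by simp, by simp⟩

theorem dom_mono {p : ℕ} [Fact p.Prime] {m : ℕ} {K K' : ℕ} (h : K ≤ K')
    {g : MvPowerSeries (Fin m) ℤ_[p]} (hg : Dom K g) : Dom K' g := by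
  intro α
  obtain ⟨β, h1, h2⟩ := hg α
  exact ⟨β, h1.trans h, h2⟩

theorem chx : ChxStmt := by
  intro hAcm hFgx hInt hJ hNom hUnq hEvh p _ D m k s₀ h₀ F
  set I := (j : Fin k) × (Fin (m + 1) → Fin (D j + 1)) with hI
  have hR : IsAdicComplete (maximalIdeal (MvPowerSeries I ℤ_[p])) (MvPowerSeries I ℤ_[p]) :=
    hAcm ℤ_[p] inferInstance I
  have hunit : ∀ j < k, ∃ α, IsUnit (sR p D m k s₀ j α) := by
    intro j hj
    obtain ⟨α, hα⟩ := h₀ j hj
    refine ⟨α, ?_⟩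
    rw [MvPowerSeries.isUnit_iff_constantCoeff]
    simp only [sR, dif_pos hj, map_add, MvPowerSeries.constantCoeff_C,
      MvPowerSeries.constantCoeff_X, add_zero]
    rw [PadicInt.isUnit_iff]
    by_contra hne
    have hle := PadicInt.norm_le_one ((s₀ j α : ℤ) : ℤ_[p])
    exact hα ((PadicInt.norm_int_lt_one_iff_dvd _).1 (lt_of_le_of_ne hle hne))
  obtain ⟨ψR, n₀, bR, hψR, hgen⟩ := hFgx (MvPowerSeries I ℤ_[p]) hR D m k (sR p D m k s₀) hunit
  obtain ⟨χR, hmon, hχR⟩ := hInt (MvPowerSeries (Fin m) (MvPowerSeries I ℤ_[p]))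
    (MvPowerSeries (Fin (m + k)) (MvPowerSeries I ℤ_[p]))
    (ψR : MvPowerSeries (Fin m) (MvPowerSeries I ℤ_[p]) →+*
      MvPowerSeries (Fin (m + k)) (MvPowerSeries I ℤ_[p]))
    (Jt D (fun j α => MvPowerSeries.C (sR p D m k s₀ j α)) k MvPowerSeries.X) n₀ bR hgen
    (MvPowerSeries.map (algebraMap ℤ_[p] (MvPowerSeries I ℤ_[p])) F)
  choose K' hK' using fun j : ℕ => hNom p (MvPowerSeries I ℤ_[p]) m (χR.coeff j)
  refine ⟨n₀, χR.support.sup K', fun s hs => ?_⟩
  obtain ⟨φ, hφ⟩ := hEvh p I (fun i => ((s i.1 i.2 - s₀ i.1 i.2 : ℤ) : ℤ_[p])) (fun i =>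
    (PadicInt.norm_int_lt_one_iff_dvd _).2 (hs i.1 i.1.2 i.2))
  have hφs : ∀ j < k, ∀ α, φ (sR p D m k s₀ j α) = (s j α : ℤ_[p]) := by
    intro j hj α
    have hC : φ (MvPowerSeries.C (s₀ j α : ℤ_[p])) = (s₀ j α : ℤ_[p]) :=
      φ.commutes (s₀ j α : ℤ_[p])
    simp only [sR, dif_pos hj, map_add]
    rw [hC, hφ]
    push_cast
    ring
  set φ' : MvPowerSeries I ℤ_[p] →+* ℤ_[p] := (φ : MvPowerSeries I ℤ_[p] →+* ℤ_[p]) with hφ'
  set μm : MvPowerSeries (Fin m) (MvPowerSeries I ℤ_[p]) →+* MvPowerSeries (Fin m) ℤ_[p] :=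
    MvPowerSeries.map φ' with hμm
  set μk : MvPowerSeries (Fin (m + k)) (MvPowerSeries I ℤ_[p]) →+*
    MvPowerSeries (Fin (m + k)) ℤ_[p] := MvPowerSeries.map φ' with hμk
  have hsub : MvPowerSeries.HasSubst (fun i : Fin m =>
      (yv D k MvPowerSeries.X i : MvPowerSeries (Fin (m + k)) ℤ_[p])) :=
    MvPowerSeries.hasSubst_of_constantCoeff_zero fun i => constantCoeff_yv hJ D m k ℤ_[p] i
  set ψ : MvPowerSeries (Fin m) ℤ_[p] →ₐ[ℤ_[p]] MvPowerSeries (Fin (m + k)) ℤ_[p] :=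
    MvPowerSeries.substAlgHom hsub with hψ
  have hψX : ∀ i, ψ (MvPowerSeries.X i) = yv D k MvPowerSeries.X i := by
    intro i
    rw [hψ, MvPowerSeries.coe_substAlgHom, MvPowerSeries.subst_X hsub]
  have hyμ : ∀ i, μk (yv D k MvPowerSeries.X i) = yv D k MvPowerSeries.X i := by
    intro i
    have h := (hJ D m _ _ μk (fun _ _ => 0) k MvPowerSeries.X).1 i
    rw [h]
    congr 1
    funext j
    simp [hμk, MvPowerSeries.map_X]
  have hcomm : μk.comp (ψR : MvPowerSeries (Fin m) (MvPowerSeries I ℤ_[p]) →+*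
      MvPowerSeries (Fin (m + k)) (MvPowerSeries I ℤ_[p])) =
      (ψ : MvPowerSeries (Fin m) ℤ_[p] →+* MvPowerSeries (Fin (m + k)) ℤ_[p]).comp μm := by
    refine hUnq _ _ _ _ _ _ ?_ ?_ ?_
    · intro r
      have h1 : ψR (MvPowerSeries.C r) = MvPowerSeries.C r := ψR.commutes r
      have h2 : ψ (MvPowerSeries.C (φ' r)) = MvPowerSeries.C (φ' r) := ψ.commutes (φ' r)
      change μk (ψR (MvPowerSeries.C r)) = ψ (μm (MvPowerSeries.C r))
      rw [h1, hμk, hμm, MvPowerSeries.map_C, MvPowerSeries.map_C, h2]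
    · intro i
      change μk (ψR (MvPowerSeries.X i)) = ψ (μm (MvPowerSeries.X i))
      rw [hψR, hyμ, hμm, MvPowerSeries.map_X, hψX]
    · intro i
      change MvPowerSeries.constantCoeff (μk (ψR (MvPowerSeries.X i))) = 0
      rw [hψR, hyμ]
      exact constantCoeff_yv hJ D m k ℤ_[p] i
  have hcomm' : ∀ c, μk (ψR c) = ψ (μm c) := fun c => congrArg (fun u => u c) hcomm
  -- transport of the memberships
  have htr : ∀ a ∈ Jt D (fun j α => MvPowerSeries.C (sR p D m k s₀ j α)) k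
      (MvPowerSeries.X : Fin (m + k) → MvPowerSeries (Fin (m + k)) (MvPowerSeries I ℤ_[p])),
      μk a ∈ Jt D (fun j α => MvPowerSeries.C (s j α : ℤ_[p])) k
        (MvPowerSeries.X : Fin (m + k) → MvPowerSeries (Fin (m + k)) ℤ_[p]) := by
    intro a ha
    have h := (hJ D m _ _ μk (fun j α => MvPowerSeries.C (sR p D m k s₀ j α)) k
      MvPowerSeries.X).2.1 a ha
    have hx : (fun j => μk (MvPowerSeries.X j)) =
        (MvPowerSeries.X : Fin (m + k) → MvPowerSeries (Fin (m + k)) ℤ_[p]) := by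
      funext j
      simp [hμk, MvPowerSeries.map_X]
    rw [hx] at h
    rw [jt_congr D (fun j α => MvPowerSeries.C (s j α : ℤ_[p]))
      (fun j α => μk (MvPowerSeries.C (sR p D m k s₀ j α))) k]
    · exact h
    · intro j hj
      funext α
      rw [hμk, MvPowerSeries.map_C]
      congr 1
      exact (hφs j hj α).symm
  have hlift : ∀ f : MvPowerSeries (Fin (m + k)) ℤ_[p],
      μk (MvPowerSeries.map (algebraMap ℤ_[p] (MvPowerSeries I ℤ_[p])) f) = f := by
    intro f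
    ext n
    rw [hμk, MvPowerSeries.coeff_map, MvPowerSeries.coeff_map]
    exact φ.commutes _
  -- vanishing under homomorphisms
  have hvan : ∀ (O : Type) [CommRing O] (Φ : MvPowerSeries (Fin (m + k)) ℤ_[p] →+* O),
      Rels D (fun j α => (s j α : O)) k (fun i => Φ (MvPowerSeries.X i)) →
      ∀ a ∈ Jt D (fun j α => MvPowerSeries.C (s j α : ℤ_[p])) k
        (MvPowerSeries.X : Fin (m + k) → MvPowerSeries (Fin (m + k)) ℤ_[p]), Φ a = 0 := by
    intro O _ Φ hrel a ha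
    refine (hJ D m _ _ Φ (fun j α => MvPowerSeries.C (s j α : ℤ_[p])) k
      MvPowerSeries.X).2.2 ?_ a ha
    have hc : (fun (j : ℕ) (α : Fin (m + 1) → Fin (D j + 1)) =>
        Φ (MvPowerSeries.C (s j α : ℤ_[p]))) = fun j α => (s j α : O) := by
      funext j α
      rw [map_intCast, map_intCast]
    rw [hc]
    exact hrel
  refine ⟨ψ, fun i => μk (bR i), χR.map μm, hψX, hmon.map μm, ?_, ?_, ?_⟩
  · intro j
    rw [Polynomial.coeff_map]
    by_cases hj : j ∈ χR.support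
    · exact dom_mono (Finset.le_sup hj) (hK' j φ')
    · rw [Polynomial.notMem_support_iff.1 hj, map_zero]
      exact dom_zero _
  · intro O _ Φ hrel
    have h1 : (χR.map μm).eval₂
        (ψ : MvPowerSeries (Fin m) ℤ_[p] →+* MvPowerSeries (Fin (m + k)) ℤ_[p]) F ∈
        Jt D (fun j α => MvPowerSeries.C (s j α : ℤ_[p])) k
        (MvPowerSeries.X : Fin (m + k) → MvPowerSeries (Fin (m + k)) ℤ_[p]) := by
      have h := htr _ hχR
      rw [Polynomial.hom_eval₂, hcomm, hlift] at h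
      rw [Polynomial.eval₂_map]
      exact h
    have h2 := hvan O Φ hrel _ h1
    rw [Polynomial.hom_eval₂] at h2
    exact h2
  · intro f
    obtain ⟨c, hc⟩ := hgen (MvPowerSeries.map (algebraMap ℤ_[p] (MvPowerSeries I ℤ_[p])) f)
    refine ⟨fun i => μm (c i), ?_⟩
    intro O _ Φ hrel
    have h1 := htr _ hc
    rw [map_sub, map_sum, hlift] at h1
    have h2 := hvan O Φ hrel _ h1
    rw [map_sub, map_sum, sub_eq_zero] at h2
    rw [h2]
    refine Finset.sum_congr rfl fun i _ => ?_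
    rw [map_mul, map_mul, hcomm']

end Pool.Agent.LRG.H32
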