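import Pool.Agent.LRG.StmtsB

/-!
# Squad LRG, row RGM
-/

set_option autoImplicit false

open Polynomial

namespace Pool.Agent.LRG.H32

theorem rgm : RgmStmt := by
  intro κ _ n D c hc h
  apply hc
  funext α
  have key : gv (fun β => (C (c β) : κ[X])) (fun i => (X : κ[X]) ^ (D + 1) ^ (i : ℕ)) =
      ∑ β : Fin n → Fin (D + 1), C (c β) * X ^ ((finFunctionFinEquiv β : ℕ)) := by
    unfold gv
    refine Finset.sum_congr rfl fun β _ => ?_
    congr 1
    rw [finFunctionFinEquiv_apply, ← Finset.prod_pow_eq_pow_sum]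
    refine Finset.prod_congr rfl fun i _ => ?_
    rw [← pow_mul, mul_comm]
  rw [key] at h
  have h2 := congrArg (fun f => Polynomial.coeff f ((finFunctionFinEquiv α : ℕ))) h
  simp only [Polynomial.finsetSum_coeff, Polynomial.coeff_C_mul, Polynomial.coeff_X_pow,
    Polynomial.coeff_zero] at h2
  rw [Finset.sum_eq_single α] at h2
  · simpa using h2
  · intro β _ hβ
    rw [if_neg, mul_zero]
    intro hh
    apply hβ
    exact (finFunctionFinEquiv.injective (Fin.ext hh)).symm
  · intro hh
    exact absurd (Finset.mem_univ α) hh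

end Pool.Agent.LRG.H32
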